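import Pool.Agent.K7.H81.PD.Stm3
import Pool.Agent.K7.H85.PD_BDY

/-! # Project PD, job MAS3 (helper16) -/

set_option autoImplicit false

noncomputable section

open MeasureTheory Filter Topology
open scoped ContDiff

namespace Pool.Agent.K7.H16.PDMAS3

open Pool.Agent.K7.H81.PD Pool.Agent.K7.H85.PDBDY

variable {N : ℕ} {Ω : Set (E N)}

/-- the mass of `ν` on a compact set where a superharmonic test function is positive -/
theorem core (hLpc : StLpc) (hCut : StCut) {m ν : Measure (E N)} {w ζ : E N → ℝ}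
    (hΩ : IsOpen Ω) (hb : Bornology.IsBounded Ω) [IsFiniteMeasure m]
    (hw : IntegrableOn w Ω) (hw0 : ∀ x, 0 ≤ w x) (hR : Rep Ω w m ν)
    (hH : ∀ ζ, Tst Ω ζ → (∀ x ∈ Ω, lap ζ x ≤ 0) → -∫ x in Ω, w x * lap ζ x ≤ ∫ x in Ω, ζ x ∂m)
    (hζ : Tst Ω ζ) (hζl : ∀ x ∈ Ω, lap ζ x ≤ 0) (hζ0 : ∀ x ∈ Ω, 0 ≤ ζ x) {K : Set (E N)}
    (hK : IsCompact K) (hKΩ : K ⊆ Ω) (hpos : ∀ x ∈ K, 0 < ζ x) : ν K ≤ m Ω := by
  classical
  obtain ⟨S, hS, hS1, hS2, hS3, hS4, hS5, hS6⟩ := hCut
  rcases K.eq_empty_or_nonempty with rfl | hne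
  · simp
  have hmono : Monotone S := monotone_of_deriv_nonneg (hS.differentiable (by simp)) fun t => (hS1 t).1
  have hS' : ContDiff ℝ ∞ (deriv S) := hS.deriv'
  have hanti : Antitone (deriv S) := antitone_of_deriv_nonpos (hS'.differentiable (by simp)) hS2
  have hS0 : S 0 = 0 := hS3 0 (by norm_num)
  have hSle : ∀ s, S s ≤ S 2 := by
    intro s
    rcases le_total s 2 with h | h
    · exact hmono h
    · rw [hS4 s h]
  obtain ⟨x0, hx0, hmin⟩ := hK.exists_isMinOn hne hζ.1.continuous.continuousOn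
  set T : ℝ := ζ x0 / 2 with hT
  have hT0 : 0 < T := by have := hpos x0 hx0; positivity
  have hKT : ∀ x ∈ K, 2 * T ≤ ζ x := by
    intro x hx
    have h1 : ζ x0 ≤ ζ x := hmin hx
    rw [hT]; linarith
  -- comparison functions
  have hcd : ∀ τ : ℝ, ContDiff ℝ ∞ (fun x => Th S τ (ζ x)) := fun τ => (Th_smooth hS).comp hζ.1
  have hGl : ∀ τ : ℝ, 0 < τ → ∀ x ∈ Ω, lap (fun x => Th S τ (ζ x)) x ≤ 0 := by
    intro τ hτ x hx
    rw [hLpc N (Th S τ) ζ x (Th_smooth hS) hζ.1, Th_deriv hS hτ, Th_deriv2 hS hτ]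
    have h1 := (hS1 (ζ x / τ)).1
    have h2 := hS2 (ζ x / τ)
    have h3 := hζl x hx
    have h4 : 0 ≤ ∑ i, pd i ζ x ^ 2 := Finset.sum_nonneg fun i _ => sq_nonneg _
    have h5 : deriv (deriv S) (ζ x / τ) / τ ≤ 0 := div_nonpos_of_nonpos_of_nonneg h2 hτ.le
    have h6 := mul_nonpos_of_nonneg_of_nonpos h1 h3
    have h7 := mul_nonpos_of_nonpos_of_nonneg h5 h4
    linarith
  have hGT : ∀ τ : ℝ, Tst Ω (fun x => Th S τ (ζ x)) := by
    intro τ
    refine ⟨hcd τ, fun x hx => ?_⟩
    show τ * S (ζ x / τ) = 0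
    rw [hζ.2 x hx, zero_div, hS0, mul_zero]
  have hsmall : ∀ τ : ℝ, 0 < τ → ∀ s, s ≤ τ → Th S τ s = s := by
    intro τ hτ s hs
    show τ * S (s / τ) = s
    rw [hS3 _ ((div_le_one hτ).2 hs)]
    field_simp
  -- the estimate for every `τ`
  have key : ∀ τ : ℝ, 0 < τ → τ < T → (T - τ) * ν.real K ≤ T * m.real Ω := by
    intro τ hτ hτT
    set G1 : E N → ℝ := fun x => Th S T (ζ x) with hG1
    set G2 : E N → ℝ := fun x => Th S τ (ζ x) with hG2
    have hG1s : ContDiff ℝ ∞ G1 := hcd T
    have hG2s : ContDiff ℝ ∞ G2 := hcd τ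
    have hle : ∀ s, 0 ≤ s → Th S τ s ≤ Th S T s := by
      intro s hs
      have hd : ∀ t, 0 ≤ t → 0 ≤ deriv (fun t => Th S T t - Th S τ t) t := by
        intro t ht
        rw [deriv_fun_sub ((Th_smooth hS).differentiable (by simp) t) ((Th_smooth hS).differentiable (by simp) t),
          Th_deriv hS hT0, Th_deriv hS hτ]
        have : deriv S (t / τ) ≤ deriv S (t / T) :=
          hanti (div_le_div_of_nonneg_left ht hτ hτT.le)
        linarith
      have hm : MonotoneOn (fun t => Th S T t - Th S τ t) (Set.Ici 0) := by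
        apply monotoneOn_of_deriv_nonneg (convex_Ici 0)
        · exact ((Th_smooth hS).sub (Th_smooth hS)).continuous.continuousOn
        · exact ((Th_smooth hS).sub (Th_smooth hS)).differentiable (by simp) |>.differentiableOn
        · intro t ht
          rw [interior_Ici] at ht
          exact hd t (le_of_lt ht)
      have h1 := hm (Set.mem_Ici.2 le_rfl) (Set.mem_Ici.2 hs) hs
      have h2 : Th S T 0 - Th S τ 0 = 0 := by
        rw [hsmall T hT0 0 hT0.le, hsmall τ hτ 0 hτ.le, sub_zero]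
      simp only [h2] at h1
      linarith
    -- the test function
    set ψ : E N → ℝ := Ω.indicator fun x => G1 x - G2 x with hψ
    have hzero : ∀ x, ζ x ≤ τ → G1 x - G2 x = 0 := by
      intro x hx
      show Th S T (ζ x) - Th S τ (ζ x) = 0
      rw [hsmall T hT0 _ (hx.trans hτT.le), hsmall τ hτ _ hx, sub_self]
    have hψout : ∀ x, x ∉ Ω → ∀ᶠ y in 𝓝 x, ψ y = 0 := by
      intro x hx
      by_cases hc : x ∈ closure Ω
      · have hfr : x ∈ frontier Ω := by
          rw [hΩ.frontier_eq]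
          exact ⟨hc, hx⟩
        have h1 : ∀ᶠ y in 𝓝 x, ζ y < τ :=
          hζ.1.continuous.continuousAt.eventually (gt_mem_nhds (by rw [hζ.2 x hfr]; exact hτ))
        filter_upwards [h1] with y hy
        rw [hψ, Set.indicator_apply]
        split_ifs
        · exact hzero y hy.le
        · rfl
      · filter_upwards [isClosed_closure.isOpen_compl.mem_nhds hc] with y hy
        rw [hψ]
        exact Set.indicator_of_notMem (fun h => hy (subset_closure h)) _
    have hψin : ∀ x ∈ Ω, ψ =ᶠ[𝓝 x] fun y => G1 y - G2 y := by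
      intro x hx
      filter_upwards [hΩ.mem_nhds hx] with y hy
      rw [hψ]
      exact Set.indicator_of_mem hy _
    have hψs : ContDiff ℝ ∞ ψ := by
      rw [contDiff_iff_contDiffAt]
      intro x
      by_cases hx : x ∈ Ω
      · exact (hG1s.sub hG2s).contDiffAt.congr_of_eventuallyEq (hψin x hx)
      · exact contDiffAt_const.congr_of_eventuallyEq (f := fun _ => (0 : ℝ)) (hψout x hx)
    set L : Set (E N) := closure Ω ∩ {x | τ ≤ ζ x} with hL
    have hLc : IsCompact L := hb.isCompact_closure.inter_right (isClosed_le continuous_const hζ.1.continuous)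
    have hLΩ : L ⊆ Ω := by
      rintro x ⟨h1, h2⟩
      by_contra h
      have hfr : x ∈ frontier Ω := by
        rw [hΩ.frontier_eq]
        exact ⟨h1, h⟩
      have h3 := hζ.2 x hfr
      have h4 : τ ≤ ζ x := h2
      linarith
    have hsup : Function.support ψ ⊆ L := by
      intro x hx
      rw [Function.mem_support] at hx
      by_cases h : x ∈ Ω
      · refine ⟨subset_closure h, ?_⟩
        show τ ≤ ζ x
        by_contra h2
        apply hx
        rw [hψ, Set.indicator_of_mem h]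
        exact hzero x (not_le.1 h2).le
      · exact absurd (hψout x h).self_of_nhds hx
    have hψc : Cci Ω ψ := by
      refine ⟨hψs, HasCompactSupport.of_support_subset_isCompact hLc hsup, ?_⟩
      exact (closure_minimal hsup hLc.isClosed).trans hLΩ
    have hψ0 : ∀ x, 0 ≤ ψ x := by
      intro x
      rw [hψ]
      apply Set.indicator_nonneg
      intro y hy
      have := hle (ζ y) (hζ0 y hy)
      show 0 ≤ Th S T (ζ y) - Th S τ (ζ y)
      linarith
    -- integrability of `ψ` for `ν`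
    have hψν : Integrable ψ ν := by
      rw [← integrableOn_iff_integrable_of_support_subset hsup]
      obtain ⟨C, hC⟩ := hLc.exists_bound_of_continuousOn hψs.continuous.continuousOn
      refine Measure.integrableOn_of_bounded (M := C) (hR.loc L hLc hLΩ).ne
        hψs.continuous.aestronglyMeasurable ?_
      rw [ae_restrict_iff' hLc.measurableSet]
      exact Eventually.of_forall fun x hx => hC x hx
    -- the equation
    have h1 := hR.eq ψ hψc
    have e1 : ∫ x in Ω, ψ x ∂m = (∫ x in Ω, G1 x ∂m) - ∫ x in Ω, G2 x ∂m := by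
      rw [← integral_sub (int_cont hb hΩ m hG1s.continuous) (int_cont hb hΩ m hG2s.continuous)]
      refine setIntegral_congr_fun hΩ.measurableSet fun x hx => ?_
      show ψ x = G1 x - G2 x
      rw [hψ, Set.indicator_of_mem hx]
    have e2 : ∫ x in Ω, w x * lap ψ x = (∫ x in Ω, w x * lap G1 x) - ∫ x in Ω, w x * lap G2 x := by
      rw [← integral_sub (int_mul hb hΩ hw (lap_cont hG1s)) (int_mul hb hΩ hw (lap_cont hG2s))]
      refine setIntegral_congr_fun hΩ.measurableSet fun x hx => ?_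
      show w x * lap ψ x = w x * lap G1 x - w x * lap G2 x
      rw [lap_congr (hψin x hx), lap_sub hG1s hG2s]
      ring
    rw [e1, e2] at h1
    have h2 := hH G2 (hGT τ) (hGl τ hτ)
    have h3 : ∫ x in Ω, w x * lap G1 x ≤ 0 := by
      refine setIntegral_nonpos hΩ.measurableSet fun x hx => ?_
      exact mul_nonpos_of_nonneg_of_nonpos (hw0 x) (hGl T hT0 x hx)
    have h4 : ∫ x in Ω, G1 x ∂m ≤ T * S 2 * m.real Ω := by
      have h5 : ∫ x in Ω, G1 x ∂m ≤ ∫ x in Ω, T * S 2 ∂m :=
        setIntegral_mono (int_cont hb hΩ m hG1s.continuous) (integrableOn_const (measure_ne_top _ _))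
          (fun x => mul_le_mul_of_nonneg_left (hSle _) hT0.le)
      rw [setIntegral_const, smul_eq_mul] at h5
      linarith
    have h5 : (T - τ) * S 2 * ν.real K ≤ ∫ x in Ω, ψ x ∂ν := by
      have h6 : ∫ x in K, ψ x ∂ν ≤ ∫ x in Ω, ψ x ∂ν :=
        setIntegral_mono_set hψν.integrableOn (Eventually.of_forall hψ0) (HasSubset.Subset.eventuallyLE hKΩ)
      have h7 : ∫ x in K, ψ x ∂ν = ∫ x in K, (T - τ) * S 2 ∂ν := by
        refine setIntegral_congr_fun hK.measurableSet fun x hx => ?_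
        show ψ x = (T - τ) * S 2
        rw [hψ, Set.indicator_of_mem (hKΩ hx)]
        show T * S (ζ x / T) - τ * S (ζ x / τ) = _
        have h8 := hKT x hx
        rw [hS4 _ ((le_div_iff₀ hT0).2 h8), hS4 _ ((le_div_iff₀ hτ).2 (by linarith))]
        ring
      rw [h7, setIntegral_const, smul_eq_mul] at h6
      linarith
    have h6 : (T - τ) * S 2 * ν.real K ≤ T * S 2 * m.real Ω := by linarith
    have h7 : 0 < S 2 := by linarith
    have h8 : S 2 * ((T - τ) * ν.real K) ≤ S 2 * (T * m.real Ω) := by linarith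
    exact le_of_mul_le_mul_left h8 h7
  -- let `τ → 0`
  have hfin : ν.real K ≤ m.real Ω := by
    have h1 : T * ν.real K ≤ T * m.real Ω := by
      refine le_of_forall_pos_le_add fun ε hε => ?_
      have hν0 : 0 ≤ ν.real K := measureReal_nonneg
      set τ : ℝ := min (T / 2) (ε / (ν.real K + 1)) with hτ
      have hτ0 : 0 < τ := lt_min (by positivity) (by positivity)
      have hτT : τ < T := (min_le_left _ _).trans_lt (by linarith)
      have h2 := key τ hτ0 hτT
      have h3 : τ * (ν.real K + 1) ≤ ε := by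
        have := min_le_right (T / 2) (ε / (ν.real K + 1))
        rw [← hτ, le_div_iff₀ (by positivity)] at this
        exact this
      nlinarith
    exact le_of_mul_le_mul_left h1 hT0
  have hKtop := (hR.loc K hK hKΩ).ne
  rw [← ENNReal.ofReal_toReal hKtop, ← ENNReal.ofReal_toReal (measure_ne_top m Ω)]
  exact ENNReal.ofReal_le_ofReal hfin

theorem t : StMas3 := by
  intro hMax hLpc hCut N Ω m ν w hN hΩ hb hA hm hw hw0 hR hH
  obtain ⟨ζ, hζ, hζl⟩ := hA (fun _ => 2) contDiff_const 1 one_pos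
  have hl : ∀ x ∈ Ω, lap ζ x < 0 := by
    intro x hx
    have h1 := (abs_le.1 (hζl x hx)).2
    linarith
  have hpos : ∀ x ∈ Ω, 0 < ζ x := fun x hx =>
    (hMax N Ω ζ hN hΩ hb hζ fun y hy => (hl y hy).le).2 x hx (hl x hx)
  set K : ℕ → Set (E N) := fun n => closure Ω ∩ {x | 1 / ((n : ℝ) + 1) ≤ ζ x} with hK
  have hKc : ∀ n, IsCompact (K n) := fun n =>
    hb.isCompact_closure.inter_right (isClosed_le continuous_const hζ.1.continuous)
  have hKΩ : ∀ n, K n ⊆ Ω := by
    rintro n x ⟨h1, h2⟩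
    by_contra h
    have hfr : x ∈ frontier Ω := by
      rw [hΩ.frontier_eq]
      exact ⟨h1, h⟩
    have h3 := hζ.2 x hfr
    have h4 : 1 / ((n : ℝ) + 1) ≤ ζ x := h2
    have h5 : (0 : ℝ) < 1 / ((n : ℝ) + 1) := by positivity
    linarith
  have hKm : Monotone K := by
    intro a b hab x hx
    refine ⟨hx.1, ?_⟩
    have h1 : 1 / ((a : ℝ) + 1) ≤ ζ x := hx.2
    have h0 : (a : ℝ) ≤ b := by exact_mod_cast hab
    have h2 : 1 / ((b : ℝ) + 1) ≤ 1 / ((a : ℝ) + 1) :=
      one_div_le_one_div_of_le (by positivity) (by linarith)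
    exact h2.trans h1
  have hU : (⋃ n, K n) = Ω := by
    apply Set.Subset.antisymm (Set.iUnion_subset hKΩ)
    intro x hx
    obtain ⟨n, hn⟩ := exists_nat_one_div_lt (hpos x hx)
    exact Set.mem_iUnion.2 ⟨n, subset_closure hx, hn.le⟩
  have h1 : ν Set.univ = ν Ω := by
    apply le_antisymm
    · calc ν Set.univ = ν (Ω ∪ Ωᶜ) := by rw [Set.union_compl_self]
        _ ≤ ν Ω + ν Ωᶜ := measure_union_le _ _
        _ = ν Ω := by rw [hR.comp, add_zero]
    · exact measure_mono (Set.subset_univ _)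
  rw [h1]
  have h2 : ν Ω = ⨆ n, ν (K n) := by
    rw [← hKm.measure_iUnion, hU]
  rw [h2]
  exact iSup_le fun n => core hLpc hCut hΩ hb hw hw0 hR hH hζ (fun x hx => (hl x hx).le)
    (fun x hx => (hpos x hx).le) (hKc n) (hKΩ n) fun x hx => hpos x (hKΩ n hx)

end Pool.Agent.K7.H16.PDMAS3
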